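import Pool.Agent.H85.BC.Basic

/-!
# A II₁ factor has no minimal projection (row NM of bcg_modules)
-/

set_option autoImplicit false

open scoped InnerProductSpace Topology
open Filter

namespace Pool.Agent.H68.BC

open Pool.Agent.H85.BC

theorem pf_NM {H : Type} [NormedAddCommGroup H] [InnerProductSpace ℂ H] [CompleteSpace H]
    (hSCAL : T_SCAL H) (hMINP : T_MINP H) : T_NM H := by
  classical
  intro N ξ hN f hf hfp _ hf0
  by_contra hcon
  have hmin : ∀ e ∈ N, IsStarProjection e → f * e = e → e = 0 ∨ e = f := by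
    intro e he hep hfe
    by_contra hc
    push Not at hc
    exact hcon ⟨e, he, hep, hfe, hc.1, hc.2⟩
  have hsc := hSCAL N f hf hfp hmin
  have h1N : (1 : H →L[ℂ] H) ∈ N := one_mem N
  have hp1 : IsStarProjection (1 : H →L[ℂ] H) := ⟨one_mul 1, star_one _⟩
  have hFC : FactorCorner N 1 := by
    intro x hx hcomm
    refine hN.factor x hx.1 fun y hy => hcomm y ⟨hy, by rw [one_mul, mul_one]⟩
  obtain ⟨n, v, hv, hsum⟩ := hMINP N ξ hN.traceVector N (fun x hx => hx) 1 h1N hp1 hFC f hf hfp
    (one_mul f) hf0 hsc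
  apply hN.infinite
  refine ⟨(Finset.univ : Finset (Fin n × Fin n)).image fun p => v p.1 * star (v p.2), ?_⟩
  intro x hx
  have hvf : ∀ i, v i * f = v i := by
    intro i
    have h1 := pi_mul_star_mul (v := v i) (by rw [(hv i).2]; exact hfp)
    rwa [(hv i).2] at h1
  have hfv : ∀ i, f * star (v i) = star (v i) := by
    intro i
    have h1 := congrArg star (hvf i)
    rwa [star_mul, hfp.isSelfAdjoint.star_eq] at h1
  have e1 : x = ∑ i, ∑ j, v i * (star (v i) * x * v j) * star (v j) := by
    have h1 : x = (∑ i, v i * star (v i)) * x * (∑ j, v j * star (v j)) := by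
      rw [hsum, one_mul, mul_one]
    conv_lhs => rw [h1]
    rw [Finset.sum_mul, Finset.sum_mul]
    refine Finset.sum_congr rfl fun i _ => ?_
    rw [Finset.mul_sum]
    refine Finset.sum_congr rfl fun j _ => ?_
    simp only [mul_assoc]
  rw [e1]
  refine Submodule.sum_mem _ fun i _ => Submodule.sum_mem _ fun j _ => ?_
  obtain ⟨c, hc⟩ := hsc (star (v i) * x * v j)
    (mul_mem (mul_mem (star_mem (hv i).1) hx) (hv j).1)
  have e2 : star (v i) * x * v j = c • f := by
    rw [← hc]
    calc star (v i) * x * v j = (f * star (v i)) * x * (v j * f) := by rw [hfv, hvf]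
      _ = f * (star (v i) * x * v j) * f := by simp only [mul_assoc]
  rw [e2, mul_smul_comm, smul_mul_assoc, hvf]
  refine Submodule.smul_mem _ _ (Submodule.subset_span ?_)
  rw [Finset.mem_coe, Finset.mem_image]
  exact ⟨(i, j), Finset.mem_univ _, rfl⟩

end Pool.Agent.H68.BC
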