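import Pool.Agent.H85.BC.Basic

/-!
# Products of asymptotically independent unitaries (row PRD of bcg_modules)
-/

set_option autoImplicit false

open scoped InnerProductSpace Topology
open Filter

namespace Pool.Agent.H68.BC

open Pool.Agent.H85.BC

theorem norm_le_one_of_star_mul {H : Type} [NormedAddCommGroup H] [InnerProductSpace ℂ H]
    [CompleteSpace H] {w : H →L[ℂ] H} (h : star w * w = 1) : ‖w‖ ≤ 1 := by
  have h1 : ‖star w * w‖ = ‖w‖ * ‖w‖ := CStarRing.norm_star_mul_self
  have h2 : ‖(1 : H →L[ℂ] H)‖ ≤ 1 := ContinuousLinearMap.norm_id_le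
  rw [h] at h1
  rw [h1] at h2
  by_contra hc
  push Not at hc
  nlinarith [norm_nonneg w]

theorem pf_PRD {H : Type} [NormedAddCommGroup H] [InnerProductSpace ℂ H] [CompleteSpace H] :
    T_PRD H := by
  intro N ξ htv p hp hpp hp0 ι U w hw ρ hρ0 hρ1 hev hind G hG hcom ε hε
  have hpos : 0 < ‖p ξ‖ ^ 2 := by
    have := htv.norm_pos_apply hp hp0
    positivity
  have hple : ‖p ξ‖ ^ 2 ≤ 1 := by
    have h1 := proj_apply_norm_le hpp ξ
    rw [htv.norm_eq] at h1
    exact pow_le_one₀ (norm_nonneg _) h1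
  have key : ∀ (K : ℕ) (ε₀ : ℝ), 0 < ε₀ → ∃ W ∈ N, star W * W = 1 ∧ W * star W = 1 ∧
      W * (1 - p) = 1 - p ∧ ‖tr ξ (W * p)‖ ≤ ρ ^ K + K * ε₀ ∧
      ∀ g ∈ G, ‖(W * g - g * W) ξ‖ ≤ K * ε₀ := by
    intro K
    induction K with
    | zero =>
      intro ε₀ _
      refine ⟨1, one_mem N, by simp, by simp, by simp, ?_, ?_⟩
      · rw [one_mul, tr_proj ξ hpp, Complex.norm_real, Real.norm_eq_abs, abs_of_pos hpos]
        simpa using hple
      · intro g _
        simp
    | succ K ih =>
      intro ε₀ hε₀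
      obtain ⟨W, hWN, hW1, hW2, hWp, hWt, hWc⟩ := ih ε₀ hε₀
      have h1 : ∀ᶠ i in (U : Filter ι),
          ‖tr ξ (W * (w i * p)) - tr ξ (W * p) * (tr ξ (w i * p) / tr ξ p)‖ < ε₀ := by
        have h2 := (hind W hWN).norm
        rw [norm_zero] at h2
        exact h2.eventually (gt_mem_nhds hε₀)
      have h2 : ∀ᶠ i in (U : Filter ι), ∀ g ∈ G, ‖(w i * g - g * w i) ξ‖ < ε₀ := by
        rw [Filter.eventually_all_finset]
        intro g hg
        exact (hcom g hg).eventually (gt_mem_nhds hε₀)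
      obtain ⟨i, hi0, hi1, hi2⟩ := (hev.and (h1.and h2)).exists
      obtain ⟨hwN, hw1, hw2, hwp⟩ := hw i
      have hWn : ‖W‖ ≤ 1 := norm_le_one_of_star_mul hW1
      have hwn : ‖w i‖ ≤ 1 := norm_le_one_of_star_mul hw1
      refine ⟨W * w i, mul_mem hWN hwN, ?_, ?_, ?_, ?_, ?_⟩
      · rw [star_mul]
        calc star (w i) * star W * (W * w i) = star (w i) * (star W * W) * w i := by
              simp only [mul_assoc]
          _ = 1 := by rw [hW1, mul_one, hw1]
      · rw [star_mul]
        calc W * w i * (star (w i) * star W) = W * (w i * star (w i)) * star W := by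
              simp only [mul_assoc]
          _ = 1 := by rw [hw2, mul_one, hW2]
      · rw [mul_assoc, hwp, hWp]
      · have h3 : ‖tr ξ (w i * p) / tr ξ p‖ ≤ ρ := by
          rw [norm_div, tr_proj ξ hpp, Complex.norm_real, Real.norm_eq_abs, abs_of_pos hpos,
            div_le_iff₀ hpos]
          exact hi0
        have h4 : ‖tr ξ (W * p) * (tr ξ (w i * p) / tr ξ p)‖ ≤ (ρ ^ K + K * ε₀) * ρ := by
          rw [norm_mul]
          exact mul_le_mul hWt h3 (norm_nonneg _) (by positivity)
        have h5 : ‖tr ξ (W * (w i * p))‖ ≤ ε₀ + (ρ ^ K + K * ε₀) * ρ := by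
          have h6 := norm_add_le (tr ξ (W * (w i * p)) - tr ξ (W * p) *
            (tr ξ (w i * p) / tr ξ p)) (tr ξ (W * p) * (tr ξ (w i * p) / tr ξ p))
          rw [sub_add_cancel] at h6
          linarith
        rw [mul_assoc]
        refine h5.trans ?_
        have h6 : (K : ℝ) * ε₀ * ρ ≤ K * ε₀ := mul_le_of_le_one_right (by positivity) hρ1.le
        have h7 : ρ ^ K * ρ = ρ ^ (K + 1) := (pow_succ ρ K).symm
        push_cast
        rw [add_mul, h7]
        linarith
      · intro g hg
        have e1 : W * w i * g - g * (W * w i) = W * (w i * g - g * w i) +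
            (W * g - g * W) * w i := by
          simp only [mul_sub, sub_mul, mul_assoc]
          abel
        rw [e1, add_apply]
        have h3 : ‖(W * (w i * g - g * w i)) ξ‖ ≤ ε₀ := by
          refine (norm_mul_left ξ _ _).trans ?_
          have := mul_le_mul hWn (hi2 g hg).le (norm_nonneg _) zero_le_one
          linarith
        have h4 : ‖((W * g - g * W) * w i) ξ‖ ≤ K * ε₀ := by
          refine (htv.norm_mul_right (sub_mem (mul_mem hWN (hG g hg)) (mul_mem (hG g hg) hWN))
            hwN).trans ?_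
          have := mul_le_mul hwn (hWc g hg) (norm_nonneg _) zero_le_one
          linarith
        refine (norm_add_le _ _).trans ?_
        have e2 : ((K + 1 : ℕ) : ℝ) * ε₀ = K * ε₀ + ε₀ := by
          push_cast
          ring
        rw [e2]
        linarith
  obtain ⟨K, hK⟩ := exists_pow_lt_of_lt_one (show 0 < ε / 2 by positivity) hρ1
  have hK0 : (0 : ℝ) < 2 * ((K : ℝ) + 1) := by positivity
  obtain ⟨W, hWN, hW1, hW2, hWp, hWt, hWc⟩ := key K (ε / (2 * ((K : ℝ) + 1))) (by positivity)
  have h1 : (K : ℝ) * (ε / (2 * ((K : ℝ) + 1))) < ε / 2 := by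
    rw [mul_div_assoc', div_lt_div_iff₀ hK0 two_pos]
    nlinarith
  refine ⟨W, hWN, hW1, hW2, hWp, by linarith, fun g hg => ?_⟩
  have := hWc g hg
  linarith

end Pool.Agent.H68.BC
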