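import Pool.Agent.H85.BC.Basic

/-!
# Weak limits are scalars (row SCL of bcg_modules)
-/

set_option autoImplicit false

open scoped InnerProductSpace Topology
open Filter

namespace Pool.Agent.H68.BC

open Pool.Agent.H85.BC

theorem pf_SCL {H : Type} [NormedAddCommGroup H] [InnerProductSpace ℂ H] [CompleteSpace H]
    (hWL : T_WL H) (hWC : T_WC H) : T_SCL H := by
  intro N ξ htv C p hirr ι U x B hx hpx hB hcom y hy
  obtain ⟨z, hz, _, hlim⟩ := hWL N ι U x B hx hB
  have hzC : ∀ g ∈ C, z * g = g * z := fun g hg =>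
    hWC N ξ htv ι U x hx z hz hlim g (hirr.sub g hg) (hcom g hg)
  have hps := hirr.proj.isSelfAdjoint.star_eq
  have hpz : p * z * p = z := by
    ext ζ
    refine ext_inner_left ℂ fun η => ?_
    have e1 : (inner ℂ η ((p * z * p) ζ) : ℂ) = inner ℂ (p η) (z (p ζ)) := by
      rw [mul_app, mul_app]
      nth_rewrite 1 [← hps]
      rw [inner_star_right]
    rw [e1]
    refine tendsto_nhds_unique (hlim (p η) (p ζ)) ?_
    refine (hlim η ζ).congr fun i => ?_
    nth_rewrite 1 [← hpx i]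
    rw [mul_app, mul_app]
    nth_rewrite 1 [← hps]
    rw [inner_star_right]
  obtain ⟨c, hc⟩ := hirr.irr z hz hpz hzC
  have hp0 : tr ξ p ≠ 0 := by
    rw [tr_proj ξ hirr.proj]
    have h1 := htv.norm_pos_apply hirr.mem hirr.ne_zero
    have h2 : (‖p ξ‖ ^ 2 : ℝ) ≠ 0 := by positivity
    exact_mod_cast h2
  have h1 : Tendsto (fun i => tr ξ (y * x i)) (U : Filter ι) (𝓝 (c * tr ξ (y * p))) := by
    have h2 := hlim (star y ξ) ξ
    have e1 : (inner ℂ (star y ξ) (z ξ) : ℂ) = c * tr ξ (y * p) := by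
      rw [inner_star_left, hc, ← tr_smul]
      unfold tr
      rw [smul_apply, smul_apply, map_smul, mul_app]
    rw [e1] at h2
    refine h2.congr fun i => ?_
    rw [inner_star_left]
    rfl
  have h3 : Tendsto (fun i => tr ξ (x i)) (U : Filter ι) (𝓝 (c * tr ξ p)) := by
    have h2 := hlim ξ ξ
    have e1 : (inner ℂ ξ (z ξ) : ℂ) = c * tr ξ p := by
      rw [hc, ← tr_smul]
      rfl
    rw [e1] at h2
    exact h2
  have h4 := h1.sub ((h3.div_const (tr ξ p)).const_mul (tr ξ (y * p)))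
  have e2 : c * tr ξ (y * p) - tr ξ (y * p) * (c * tr ξ p / tr ξ p) = 0 := by
    field_simp
    ring
  rw [e2] at h4
  exact h4

end Pool.Agent.H68.BC
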